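import Pool.Agent.Helper13.DV.GP

/-!
# MP_5766af_al, blueprint 9.4: the generic pencil
-/

set_option autoImplicit false

open Polynomial

namespace Pool.Agent.Helper13.DV

variable {E : Type*} [Field E]

theorem infinite_subfield [CharZero E] (k : Subfield E) : Infinite k :=
  Infinite.of_injective (Nat.cast : ℕ → k) (fun a b h => by
    have := congrArg (Subtype.val : k → E) h
    simpa using this)

/-- two independent elements: the members of the pencil are independent -/
theorem pencil_transcendental (f : Subfield E) (A B : E) (hBt : Transcendental f B)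
    (hAt : Transcendental (Subfield.closure ((f : Set E) ∪ {B})) A) (c c' : f) (hcc : c ≠ c') :
    Transcendental (Subfield.closure ((f : Set E) ∪ {A + c' * B})) (A + c * B) := by
  -- `q = A + c' B` is transcendental over `f(B)`
  have hq : Transcendental (Subfield.closure ((f : Set E) ∪ {B})) (A + c' * B) := by
    intro h
    apply hAt
    have h1 : IsAlgebraic (Subfield.closure ((f : Set E) ∪ {B})) ((c' : E) * B) :=
      isAlgebraic_of_mem (Subfield.mul_mem _ (le_closure_union _ _ c'.2)
        (mem_closure_union rfl))
    have := h.sub h1
    rwa [add_sub_cancel_right] at this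
  have hB' : Transcendental (Subfield.closure ((f : Set E) ∪ {A + c' * B})) B :=
    transcendental_exchange f B (A + c' * B) hBt hq
  intro h
  apply hB'
  set k := Subfield.closure ((f : Set E) ∪ {A + c' * B}) with hk
  have h1 : IsAlgebraic k (A + c' * B) := isAlgebraic_of_mem (mem_closure_union rfl)
  have h2 := h.sub h1
  have h3 : (c : E) - c' ≠ 0 := fun h => hcc (Subtype.ext (sub_eq_zero.1 h))
  have h4 : IsAlgebraic k (((c : E) - c')⁻¹) := by
    apply isAlgebraic_of_mem
    exact k.inv_mem (k.sub_mem (le_closure_union _ _ c.2) (le_closure_union _ _ c'.2))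
  have h5 := h4.mul h2
  have h6 : ((c : E) - c')⁻¹ * (A + c * B - (A + c' * B)) = B := by
    field_simp
    ring
  rwa [h6] at h5

/-- `B` is transcendental over `f(Y, A+YB)` -/
theorem pencil_transcendental' (f P : Subfield E) (hf : f ≤ P) (A B : E) (hA : A ∈ P)
    (hB : B ∈ P) (hBt : Transcendental f B)
    (hAt : Transcendental (Subfield.closure ((f : Set E) ∪ {B})) A) (Y : E)
    (hY : Transcendental P Y) :
    Transcendental (Subfield.closure ((f : Set E) ∪ {Y, A + Y * B})) B := by
  set k1 := Subfield.closure ((f : Set E) ∪ {B}) with hk1
  have hk1P : k1 ≤ P := closure_le_of hf (Set.singleton_subset_iff.2 hB)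
  -- `A` is transcendental over `f(B,Y)`
  have h1 : Transcendental (Subfield.closure ((k1 : Set E) ∪ {Y})) A :=
    transcendental_exchange k1 A Y hAt
      (transcendental_mono (closure_le_of hk1P (Set.singleton_subset_iff.2 hA)) hY)
  have h2 : Transcendental (Subfield.closure ((k1 : Set E) ∪ {Y})) (A + Y * B) := by
    intro h
    apply h1
    have h3 : IsAlgebraic (Subfield.closure ((k1 : Set E) ∪ {Y})) (Y * B) :=
      isAlgebraic_of_mem (Subfield.mul_mem _ (mem_closure_union rfl)
        (le_closure_union _ _ (mem_closure_union rfl)))
    have := h.sub h3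
    rwa [add_sub_cancel_right] at this
  set k2 := Subfield.closure ((f : Set E) ∪ {Y}) with hk2
  have h4 : Transcendental k2 B := transcendental_exchange f B Y hBt
    (transcendental_mono hk1P hY)
  have h5 : Transcendental (Subfield.closure ((k2 : Set E) ∪ {A + Y * B})) B := by
    apply transcendental_exchange k2 B (A + Y * B) h4
    refine transcendental_mono ?_ h2
    refine closure_le_of (closure_le_of ?_ ?_) ?_
    · exact (le_closure_union _ _).trans (le_closure_union k1 _)
    · exact Set.singleton_subset_iff.2 (mem_closure_union rfl)
    · exact Set.singleton_subset_iff.2 (le_closure_union k1 _ (mem_closure_union rfl))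
  refine transcendental_mono ?_ h5
  refine closure_le_of ((le_closure_union _ _).trans (le_closure_union k2 _)) ?_
  rintro x (rfl | hx)
  · exact le_closure_union k2 _ (mem_closure_union rfl)
  · rw [Set.mem_singleton_iff] at hx
    subst hx
    exact mem_closure_union rfl

end Pool.Agent.Helper13.DV
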