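import Pool.Agent.Helper13.DV.GP

/-!
# MP_5766af_al, blueprint 9.3: purely transcendental extensions, several variables
-/

set_option autoImplicit false

open Polynomial

namespace Pool.Agent.Helper13.DV

variable {E : Type*} [Field E]

/-- 9.3: `k` is algebraically closed in `k(c_1,…,c_r)`, `c` algebraically independent. -/
theorem mem_of_isAlgebraic_pt (k : Subfield E) {r : ℕ} (c : Fin r → E)
    (hc : AlgebraicIndependent k c) (x : E)
    (hx : x ∈ Subfield.closure ((k : Set E) ∪ Set.range c)) (h : IsAlgebraic k x) : x ∈ k := by
  have key : ∀ n : ℕ, n ≤ r → x ∈ Subfield.closure ((k : Set E) ∪ c '' {i | (i : ℕ) < n}) →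
      x ∈ k := by
    intro n
    induction n with
    | zero =>
      intro _ h0
      have : (c '' {i : Fin r | (i : ℕ) < 0}) = ∅ := by simp
      rw [this, Set.union_empty, Subfield.closure_eq] at h0
      exact h0
    | succ n ih =>
      intro hn hx1
      apply ih (by omega)
      set K := Subfield.closure ((k : Set E) ∪ c '' {i | (i : ℕ) < n}) with hK
      have hT : Transcendental K (c ⟨n, hn⟩) := by
        rw [hK, transcendental_closure_iff]
        exact hc.transcendental_adjoin (by simp)
      refine mem_of_isAlgebraic_simple K (c ⟨n, hn⟩) hT x ?_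
        (isAlgebraic_mono (le_closure_union _ _) h)
      refine closure_le_of ((le_closure_union k _).trans (le_closure_union K _)) ?_ hx1
      rintro _ ⟨i, hi, rfl⟩
      simp only [Set.mem_ofPred_eq] at hi
      by_cases hi' : (i : ℕ) < n
      · exact le_closure_union K _ (mem_closure_union ⟨i, hi', rfl⟩)
      · have : i = ⟨n, hn⟩ := Fin.ext (by simp; omega)
        rw [this]
        exact mem_closure_union rfl
  refine key r le_rfl (closure_le_of (le_closure_union _ _) ?_ hx)
  rintro _ ⟨i, rfl⟩
  exact mem_closure_union ⟨i, i.2, rfl⟩

end Pool.Agent.Helper13.DV
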