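import Pool.Agent.Helper13.DV.GP2

/-!
# MP_5766af_al, blueprint 9.4: the generic pencil
-/

set_option autoImplicit false

open Polynomial

namespace Pool.Agent.Helper13.DV

variable {E : Type*} [Field E]

/-- specialisation of an algebraic relation -/
theorem spec_relation (P : Subfield E) (Y : E) (hY : Transcendental P Y) (α : E) (U V : P[X])
    (hUV : α * aeval Y V = aeval Y U) (d : ℕ) (R : ℕ → P[X])
    (hR : ∑ i ∈ Finset.range (d + 1), aeval Y (R i) * α ^ i = 0) (c : P)
    (hc : V.eval c ≠ 0) :
    ∑ i ∈ Finset.range (d + 1), (R i).eval c * (U.eval c / V.eval c) ^ i = 0 := by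
  let S : P[X] := ∑ i ∈ Finset.range (d + 1), R i * U ^ i * V ^ (d - i)
  have hS : S = 0 := by
    apply transcendental_iff.1 hY
    simp only [S, map_sum, map_mul, map_pow, ← hUV]
    have : ∑ i ∈ Finset.range (d + 1), aeval Y (R i) * (α * aeval Y V) ^ i *
        aeval Y V ^ (d - i) =
        aeval Y V ^ d * ∑ i ∈ Finset.range (d + 1), aeval Y (R i) * α ^ i := by
      rw [Finset.mul_sum]
      refine Finset.sum_congr rfl fun i hi => ?_
      have hi' : i ≤ d := by simpa [Nat.lt_succ_iff] using hi
      conv_rhs => rw [← Nat.add_sub_cancel' hi', pow_add]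
      ring
    rw [this, hR, mul_zero]
  have h1 := congrArg (fun p : P[X] => p.eval c) hS
  simp only [S, eval_finsetSum, eval_mul, eval_pow, eval_zero] at h1
  have h2 : ∑ i ∈ Finset.range (d + 1), (R i).eval c * U.eval c ^ i * V.eval c ^ (d - i) =
      V.eval c ^ d * ∑ i ∈ Finset.range (d + 1), (R i).eval c * (U.eval c / V.eval c) ^ i := by
    rw [Finset.mul_sum]
    refine Finset.sum_congr rfl fun i hi => ?_
    have hi' : i ≤ d := by simpa [Nat.lt_succ_iff] using hi
    conv_rhs => rw [← Nat.add_sub_cancel' hi', pow_add, div_pow]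
    field_simp
  rw [h2] at h1
  exact (mul_eq_zero.1 h1).resolve_left (pow_ne_zero _ hc)

theorem generic_pencil [CharZero E] (f P : Subfield E) (hf : f ≤ P)
    (hac : ∀ x ∈ P, IsAlgebraic f x → x ∈ f) (A B : E) (hA : A ∈ P) (hB : B ∈ P)
    (hBt : Transcendental f B) (hAt : Transcendental (Subfield.closure ((f : Set E) ∪ {B})) A)
    (Y : E) (hY : Transcendental P Y) (α : E)
    (hα : α ∈ Subfield.closure ((P : Set E) ∪ {Y}))
    (halg : IsAlgebraic (Subfield.closure ((f : Set E) ∪ {Y, A + Y * B})) α) :
    α ∈ Subfield.closure ((f : Set E) ∪ {Y, A + Y * B}) := by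
  classical
  set Φ : Subfield E := Subfield.closure ((f : Set E) ∪ {A, B}) with hΦ
  have hfΦ : f ≤ Φ := le_closure_union _ _
  have hAΦ : A ∈ Φ := mem_closure_union (by simp)
  have hBΦ : B ∈ Φ := mem_closure_union (by simp)
  have hΦP : Φ ≤ P := by
    refine closure_le_of hf ?_
    rintro x (rfl | hx)
    · exact hA
    · rw [Set.mem_singleton_iff] at hx; subst hx; exact hB
  set Λ : Subfield E := P ⊓ ac Φ with hΛ
  have hΛP : Λ ≤ P := inf_le_left
  have hΦΛ : Φ ≤ Λ := le_inf hΦP (le_ac _)
  -- Step 1
  have hα1 : α ∈ Subfield.closure ((Λ : Set E) ∪ {Y}) := by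
    refine rat_descent Λ P hΛP (infinite_subfield _) ?_ Y hY α hα ?_
    · intro x hx hxa
      exact ⟨hx, mem_ac.2 (isAlgebraic_trans Φ Λ hΦΛ (fun y hy => mem_ac.1 hy.2) x hxa)⟩
    · refine isAlgebraic_mono ?_ halg
      refine closure_le_of ((hfΦ.trans hΦΛ).trans (le_closure_union _ _)) ?_
      rintro x (rfl | hx)
      · exact mem_closure_union rfl
      · rw [Set.mem_singleton_iff] at hx; subst hx
        exact Subfield.add_mem _ (le_closure_union _ _ (hΦΛ hAΦ))
          (Subfield.mul_mem _ (mem_closure_union rfl) (le_closure_union _ _ (hΦΛ hBΦ)))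
  obtain ⟨U0, V0, hV0, hUV0⟩ := (mem_closure_simple Λ Y α).1 hα1
  letI : Algebra Λ P := (Subfield.inclusion hΛP).toAlgebra
  haveI : IsScalarTower Λ P E := IsScalarTower.of_algebraMap_eq fun x => rfl
  set U : P[X] := U0.map (algebraMap Λ P) with hU
  set V : P[X] := V0.map (algebraMap Λ P) with hV
  have hVY : aeval Y V ≠ 0 := by rw [hV, aeval_map_algebraMap]; exact hV0
  have hUV : α * aeval Y V = aeval Y U := by
    rw [hU, hV, aeval_map_algebraMap, aeval_map_algebraMap]; exact hUV0
  have hVne : V ≠ 0 := by rintro h; rw [h] at hVY; simp at hVY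
  -- the finite extension `Λ'`
  set s : Set E := ((fun i => ((U0.coeff i : Λ) : E)) '' (U0.support : Set ℕ)) ∪
    ((fun i => ((V0.coeff i : Λ) : E)) '' (V0.support : Set ℕ)) with hs
  have hsfin : s.Finite := (U0.support.finite_toSet.image _).union
    (V0.support.finite_toSet.image _)
  have hsΛ : s ⊆ Λ := by
    rintro x (⟨i, _, rfl⟩ | ⟨i, _, rfl⟩)
    · exact Subtype.prop _
    · exact Subtype.prop _
  haveI := hsfin.to_subtype
  set L' : IntermediateField Φ E := IntermediateField.adjoin Φ s with hL'
  haveI : FiniteDimensional Φ L' := IntermediateField.finiteDimensional_adjoin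
    (fun x hx => (mem_ac.1 (hsΛ hx).2).isIntegral)
  haveI : CharZero Φ := ⟨fun a b h => by
    have := congrArg (Subtype.val : Φ → E) h
    simpa using this⟩
  haveI : Finite (IntermediateField Φ L') :=
    Field.finite_intermediateField_of_exists_primitive_element Φ L'
      (Field.exists_primitive_element Φ L')
  have hL'Λ : ∀ x ∈ L', x ∈ Λ := by
    have : L' ≤ Λ.toIntermediateField (fun x => hΦΛ x.2) := by
      rw [hL', IntermediateField.adjoin_le_iff]
      exact hsΛ
    exact this
  have hfL' : ∀ x ∈ f, x ∈ L' := fun x hx => L'.algebraMap_mem (⟨x, hfΦ hx⟩ : Φ)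
  have hUc : ∀ i, ((U0.coeff i : Λ) : E) ∈ L' := by
    intro i
    by_cases hi : i ∈ U0.support
    · exact IntermediateField.subset_adjoin _ _ (Or.inl ⟨i, hi, rfl⟩)
    · rw [notMem_support_iff.1 hi]; exact L'.zero_mem
  have hVc : ∀ i, ((V0.coeff i : Λ) : E) ∈ L' := by
    intro i
    by_cases hi : i ∈ V0.support
    · exact IntermediateField.subset_adjoin _ _ (Or.inr ⟨i, hi, rfl⟩)
    · rw [notMem_support_iff.1 hi]; exact L'.zero_mem
  -- evaluation
  let ev : f → P := fun c => ⟨c, hf c.2⟩
  have hevinj : Function.Injective ev := fun a b h =>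
    Subtype.ext (congrArg (Subtype.val : P → E) h)
  have hUev : ∀ c : f, ((U.eval (ev c) : P) : E) ∈ L' := by
    intro c
    have : ((U.eval (ev c) : P) : E) =
        ∑ i ∈ Finset.range (U.natDegree + 1), ((U.coeff i : P) : E) * (c : E) ^ i := by
      rw [eval_eq_sum_range]; push_cast; rfl
    rw [this]
    refine sum_mem fun i _ => mul_mem ?_ (pow_mem (hfL' _ c.2) _)
    rw [hU, coeff_map]
    exact hUc i
  have hVev : ∀ c : f, ((V.eval (ev c) : P) : E) ∈ L' := by
    intro c
    have : ((V.eval (ev c) : P) : E) =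
        ∑ i ∈ Finset.range (V.natDegree + 1), ((V.coeff i : P) : E) * (c : E) ^ i := by
      rw [eval_eq_sum_range]; push_cast; rfl
    rw [this]
    refine sum_mem fun i _ => mul_mem ?_ (pow_mem (hfL' _ c.2) _)
    rw [hV, coeff_map]
    exact hVc i
  -- the relation
  obtain ⟨R, hR, hR0⟩ := exists_spec_rel f P hf A B hA hB Y hY α halg
  set d := R.natDegree with hd
  have hlc : ((R.coeff d : specRing f P hf A B) : P[X]) ≠ 0 := by
    intro h
    apply leadingCoeff_ne_zero.2 hR
    exact Subtype.ext h
  let val : f → P := fun c => U.eval (ev c) / V.eval (ev c)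
  let K0 : f → Subfield E := fun c => Subfield.closure ((f : Set E) ∪ {A + c * B})
  have hK0P : ∀ c, K0 c ≤ P := by
    intro c
    refine closure_le_of hf (Set.singleton_subset_iff.2 ?_)
    exact P.add_mem hA (P.mul_mem (hf c.2) hB)
  let Lc : f → Subfield E := fun c => L'.toSubfield ⊓ ac (K0 c)
  have hval : ∀ c : f, ((R.coeff d : specRing f P hf A B) : P[X]).eval (ev c) ≠ 0 →
      V.eval (ev c) ≠ 0 → ((val c : P) : E) ∈ Lc c := by
    intro c hc1 hc2
    refine ⟨?_, ?_⟩
    · show ((val c : P) : E) ∈ L'
      have : ((val c : P) : E) = ((U.eval (ev c) : P) : E) / ((V.eval (ev c) : P) : E) := by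
        simp [val]
      rw [this]
      exact div_mem (hUev c) (hVev c)
    · show ((val c : P) : E) ∈ ac (K0 c)
      rw [mem_ac]
      have h1 := spec_relation P Y hY α U V hUV d (fun i => (R.coeff i : P[X])) hR0 (ev c) hc2
      let rc : ℕ → K0 c := fun i =>
        ⟨(((R.coeff i : specRing f P hf A B) : P[X]).eval (ev c) : P),
          mem_specRing.1 (R.coeff i).2 c⟩
      refine ⟨∑ i ∈ Finset.range (d + 1), C (rc i) * X ^ i, ?_, ?_⟩
      · intro h
        have h2 := congrArg (fun p : (K0 c)[X] => p.coeff d) h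
        simp only [finsetSum_coeff, coeff_C_mul_X_pow, coeff_zero] at h2
        rw [Finset.sum_eq_single d] at h2
        · rw [if_pos rfl] at h2
          apply hc1
          exact Subtype.ext (congrArg (Subtype.val : K0 c → E) h2)
        · intro i _ hi
          rw [if_neg (Ne.symm hi)]
        · intro h; exact absurd (Finset.self_mem_range_succ d) h
      · rw [map_sum]
        simp only [map_mul, map_pow, aeval_C, aeval_X]
        have h3 := congrArg (Subtype.val : P → E) h1
        push_cast at h3
        exact h3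
  -- the fibres
  let Mc : f → IntermediateField Φ L' := fun c =>
    IntermediateField.adjoin Φ {x : L' | (x : E) ∈ Lc c}
  let Good : Set f := {c | ((R.coeff d : specRing f P hf A B) : P[X]).eval (ev c) ≠ 0 ∧
    V.eval (ev c) ≠ 0}
  have hGood : Good.Infinite := by
    have hfin : ∀ q : P[X], q ≠ 0 → {c : f | q.eval (ev c) = 0}.Finite := by
      intro q hq
      refine (q.roots.toFinset.finite_toSet.preimage (hevinj.injOn (s := _))).subset ?_
      intro c hc
      simp only [Set.mem_preimage, Finset.mem_coe, Multiset.mem_toFinset, mem_roots hq]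
      exact hc
    have h3 : Good = ({c : f | ((R.coeff d : specRing f P hf A B) : P[X]).eval (ev c) = 0} ∪
        {c : f | V.eval (ev c) = 0})ᶜ := by
      ext c; simp [Good, not_or]
    haveI := infinite_subfield f
    rw [h3]
    exact ((hfin _ hlc).union (hfin _ hVne)).infinite_compl
  haveI := hGood.to_subtype
  obtain ⟨M0, hM0⟩ := Finite.exists_infinite_fiber (fun c : Good => Mc c)
  let Fib : Set f := {c | c ∈ Good ∧ Mc c = M0}
  have hFib : Fib.Infinite := by
    have h1 := (Set.infinite_coe_iff.1 hM0).image (f := (Subtype.val : Good → f))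
      (Subtype.val_injective.injOn)
    refine h1.mono ?_
    rintro _ ⟨c, hc, rfl⟩
    exact ⟨c.2, hc⟩
  -- the values are in `f(A+cB)`
  have hkey : ∀ c ∈ Fib, ((val c : P) : E) ∈ K0 c := by
    rintro c ⟨hcG, hcM⟩
    obtain ⟨c', ⟨hc'G, hc'M⟩, hne⟩ := hFib.nontrivial.exists_ne c
    have hv := hval c hcG.1 hcG.2
    have hcc : Mc c = Mc c' := hcM.trans hc'M.symm
    refine rat_descent f (Lc c') ?_ (infinite_subfield _) ?_ (A + c * B) ?_ _ ?_ ?_
    · intro x hx
      exact ⟨hfL' x hx, le_ac _ (le_closure_union _ _ hx)⟩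
    · intro x hx hxa
      exact hac x (hΛP (hL'Λ x hx.1)) hxa
    · intro h
      apply pencil_transcendental f A B hBt hAt c c' hne.symm
      have h1 : IsAlgebraic (ac (K0 c')) (A + c * B) := isAlgebraic_mono inf_le_right h
      exact isAlgebraic_trans (K0 c') (ac (K0 c')) (le_ac _) (fun y hy => mem_ac.1 hy) _ h1
    · -- membership in `Λ_{c'}(A+cB)`
      set N : Subfield E := Subfield.closure ((Lc c' : Set E) ∪ {A + c * B}) with hN
      have hfN : f ≤ N := fun x hx => le_closure_union _ _
        ⟨hfL' x hx, le_ac _ (le_closure_union _ _ hx)⟩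
      have hq : A + c' * B ∈ N := by
        apply le_closure_union
        refine ⟨?_, le_ac _ (mem_closure_union rfl)⟩
        show A + c' * B ∈ L'
        exact add_mem (L'.algebraMap_mem (⟨A, hAΦ⟩ : Φ))
          (mul_mem (hfL' _ c'.2) (L'.algebraMap_mem (⟨B, hBΦ⟩ : Φ)))
      have hp : A + c * B ∈ N := mem_closure_union rfl
      have hcne : (c : E) - c' ≠ 0 := fun h => hne (Subtype.ext (sub_eq_zero.1 h)).symm
      have hBN : B ∈ N := by
        have h1 : ((c : E) - c')⁻¹ * (A + c * B - (A + c' * B)) = B := by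
          field_simp
          ring
        rw [← h1]
        exact N.mul_mem (N.inv_mem (N.sub_mem (hfN c.2) (hfN c'.2))) (N.sub_mem hp hq)
      have hAN : A ∈ N := by
        have h1 : (A + c * B) - c * B = A := by ring
        rw [← h1]
        exact N.sub_mem hp (N.mul_mem (hfN c.2) hBN)
      have hΦN : Φ ≤ N := by
        refine closure_le_of hfN ?_
        rintro x (rfl | hx)
        · exact hAN
        · rw [Set.mem_singleton_iff] at hx; subst hx; exact hBN
      have hle : Mc c' ≤ (N.comap (algebraMap L' E)).toIntermediateField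
          (fun x => hΦN x.2) := by
        rw [IntermediateField.adjoin_le_iff]
        intro x hx
        exact le_closure_union _ _ hx
      have hmem : (⟨((val c : P) : E), hv.1⟩ : L') ∈ Mc c :=
        IntermediateField.subset_adjoin _ _ hv
      rw [hcc] at hmem
      exact hle hmem
    · exact mem_ac.1 hv.2
  -- Step 7
  letI : Algebra Φ P := (Subfield.inclusion hΦP).toAlgebra
  haveI : IsScalarTower Φ P E := IsScalarTower.of_algebraMap_eq fun x => rfl
  let incl : f → Φ := fun c => ⟨c, hfΦ c.2⟩
  have hinclinj : Function.Injective incl := fun a b h =>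
    Subtype.ext (congrArg (Subtype.val : Φ → E) h)
  obtain ⟨U1, V1, hV1, hUV1⟩ := interpolation (k := Φ) U V hVne (incl '' Fib)
    (hFib.image hinclinj.injOn) (by
      rintro _ ⟨c, hc, rfl⟩
      have h1 := hkey c hc
      have h2 : K0 c ≤ Φ := by
        refine closure_le_of hfΦ (Set.singleton_subset_iff.2 ?_)
        exact Φ.add_mem hAΦ (Φ.mul_mem (hfΦ c.2) hBΦ)
      refine ⟨⟨((val c : P) : E), h2 h1⟩, ?_⟩
      show U.eval (ev c) = (val c) * V.eval (ev c)
      exact (div_mul_cancel₀ _ hc.1.2).symm)
  have hYΦ : Transcendental Φ Y := transcendental_mono hΦP hY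
  have hα2 : α ∈ Subfield.closure ((Φ : Set E) ∪ {Y}) := by
    rw [mem_closure_simple]
    refine ⟨U1, V1, fun h => hV1 (transcendental_iff.1 hYΦ _ h), ?_⟩
    have h := congrArg (fun p : P[X] => aeval Y p) hUV1
    simp only [map_mul, aeval_map_algebraMap, ← hUV] at h
    have h' : (α * aeval Y V1) * aeval Y V = aeval Y U1 * aeval Y V := by
      rw [← h]; ring
    exact mul_right_cancel₀ hVY h'
  -- Step 8
  refine mem_of_isAlgebraic_simple _ B
    (pencil_transcendental' f P hf A B hA hB hBt hAt Y hY) α ?_ halg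
  set k := Subfield.closure ((f : Set E) ∪ {Y, A + Y * B}) with hk
  have hYk : Y ∈ k := mem_closure_union (by simp)
  have htk : A + Y * B ∈ k := mem_closure_union (by simp)
  have hle : Subfield.closure ((Φ : Set E) ∪ {Y}) ≤ Subfield.closure ((k : Set E) ∪ {B}) := by
    refine closure_le_of (closure_le_of ?_ ?_) ?_
    · exact (le_closure_union f _).trans (le_closure_union k _)
    · rintro x (rfl | hx)
      · have h1 : (x + Y * B) - Y * B = x := by ring
        rw [← h1]
        exact Subfield.sub_mem _ (le_closure_union k _ htk)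
          (Subfield.mul_mem _ (le_closure_union k _ hYk) (mem_closure_union rfl))
      · rw [Set.mem_singleton_iff] at hx; subst hx
        exact mem_closure_union rfl
    · exact Set.singleton_subset_iff.2 (le_closure_union k _ hYk)
  exact hle hα2

end Pool.Agent.Helper13.DV
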