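import Mathlib

/-!
# MP_5766af_al: basic facts about algebraicity over subfields
-/

set_option autoImplicit false

open Polynomial

namespace Pool.Agent.Helper13.DV

/-- algebraicity only depends on the range of the base ring -/
theorem isAlgebraic_iff_coeff {R E : Type*} [CommRing R] [Field E] [Algebra R E]
    (hinj : Function.Injective (algebraMap R E)) (x : E) :
    IsAlgebraic R x ↔ ∃ p : E[X], p ≠ 0 ∧ (∀ i, p.coeff i ∈ Set.range (algebraMap R E)) ∧
      p.eval x = 0 := by
  constructor
  · rintro ⟨p, hp, hx⟩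
    refine ⟨p.map (algebraMap R E), ?_, ?_, ?_⟩
    · rwa [Ne, Polynomial.map_eq_zero_iff hinj]
    · intro i; rw [coeff_map]; exact ⟨_, rfl⟩
    · rwa [eval_map_algebraMap]
  · rintro ⟨p, hp, hc, hx⟩
    have hl : p ∈ lifts (algebraMap R E) := by
      rw [lifts_iff_coeff_lifts]; exact hc
    obtain ⟨q, rfl⟩ := (mem_lifts _).1 hl
    refine ⟨q, ?_, ?_⟩
    · rintro rfl; simp at hp
    · rwa [eval_map_algebraMap] at hx

theorem isAlgebraic_of_range {R S E : Type*} [CommRing R] [CommRing S] [Field E] [Algebra R E]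
    [Algebra S E] (hR : Function.Injective (algebraMap R E))
    (hS : Function.Injective (algebraMap S E))
    (h : Set.range (algebraMap R E) ⊆ Set.range (algebraMap S E)) {x : E}
    (hx : IsAlgebraic R x) : IsAlgebraic S x := by
  obtain ⟨p, hp, hc, h0⟩ := (isAlgebraic_iff_coeff hR x).1 hx
  exact (isAlgebraic_iff_coeff hS x).2 ⟨p, hp, fun i => h (hc i), h0⟩

variable {E : Type*} [Field E]

theorem range_subfield (k : Subfield E) : Set.range (algebraMap k E) = (k : Set E) :=
  Subtype.range_coe

theorem isAlgebraic_mono {k k' : Subfield E} (h : k ≤ k') {x : E} (hx : IsAlgebraic k x) :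
    IsAlgebraic k' x :=
  isAlgebraic_of_range (algebraMap k E).injective (algebraMap k' E).injective
    (by rw [range_subfield, range_subfield]; exact h) hx

/-- the subfield generated by `k` and `T` -/
theorem closure_eq_adjoin (k : Subfield E) (S : Set E) :
    Subfield.closure ((k : Set E) ∪ S) = (IntermediateField.adjoin k S).toSubfield := by
  rw [IntermediateField.adjoin_toSubfield, range_subfield]

theorem isAlgebraic_closure_iff (k : Subfield E) (S : Set E) (x : E) :
    IsAlgebraic (Subfield.closure ((k : Set E) ∪ S)) x ↔ IsAlgebraic (Algebra.adjoin k S) x := by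
  rw [← IntermediateField.isAlgebraic_adjoin_iff]
  have h : Set.range (algebraMap (Subfield.closure ((k : Set E) ∪ S)) E) =
      Set.range (algebraMap (IntermediateField.adjoin k S) E) := by
    rw [range_subfield, closure_eq_adjoin]
    exact Subtype.range_coe.symm
  exact ⟨isAlgebraic_of_range (RingHom.injective _) (RingHom.injective _) h.subset,
    isAlgebraic_of_range (RingHom.injective _) (RingHom.injective _) h.superset⟩

theorem mem_closure_simple (k : Subfield E) (T α : E) :
    α ∈ Subfield.closure ((k : Set E) ∪ {T}) ↔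
      ∃ U V : k[X], aeval T V ≠ 0 ∧ α * aeval T V = aeval T U := by
  rw [closure_eq_adjoin, IntermediateField.mem_toSubfield, IntermediateField.mem_adjoin_simple_iff]
  constructor
  · rintro ⟨r, s, h⟩
    by_cases hs : aeval T s = 0
    · refine ⟨0, 1, by simp, ?_⟩
      rw [h, hs]; simp
    · exact ⟨r, s, hs, by rw [h, div_mul_cancel₀ _ hs]⟩
  · rintro ⟨U, V, hV, h⟩
    exact ⟨U, V, by rw [← h, mul_div_cancel_right₀ _ hV]⟩

/-- an element algebraic over `k(T)`, `T` transcendental over `k` -/
theorem exists_biv (k : Subfield E) (T α : E) (hT : Transcendental k T)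
    (h : IsAlgebraic (Subfield.closure ((k : Set E) ∪ {T})) α) :
    ∃ R : (k[X])[X], R ≠ 0 ∧
      ∑ i ∈ Finset.range (R.natDegree + 1), aeval T (R.coeff i) * α ^ i = 0 := by
  rw [isAlgebraic_closure_iff] at h
  letI : Algebra k[X] E := (aeval T : k[X] →ₐ[k] E).toRingHom.toAlgebra
  have hinj : Function.Injective (algebraMap k[X] E) := transcendental_iff_injective.1 hT
  have hr : Set.range (algebraMap (Algebra.adjoin k {T}) E) ⊆ Set.range (algebraMap k[X] E) := by
    rintro _ ⟨⟨y, hy⟩, rfl⟩
    rw [Algebra.adjoin_singleton_eq_range_aeval] at hy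
    obtain ⟨p, rfl⟩ := hy
    exact ⟨p, rfl⟩
  obtain ⟨R, hR, h0⟩ := isAlgebraic_of_range (R := Algebra.adjoin k {T}) (S := k[X])
    Subtype.val_injective hinj hr h
  refine ⟨R, hR, ?_⟩
  rw [aeval_eq_sum_range] at h0
  rw [← h0]
  refine Finset.sum_congr rfl fun i _ => ?_
  rw [Algebra.smul_def]
  rfl

end Pool.Agent.Helper13.DV
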