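import Pool.Agent.Helper13.DV.RatDescent

/-!
# MP_5766af_al, blueprint 9.3, 9.4: purely transcendental extensions and the generic pencil
-/

set_option autoImplicit false

open Polynomial

namespace Pool.Agent.Helper13.DV

variable {E : Type*} [Field E]

theorem transcendental_closure_iff (k : Subfield E) (S : Set E) (x : E) :
    Transcendental (Subfield.closure ((k : Set E) ∪ S)) x ↔
      Transcendental (Algebra.adjoin k S) x :=
  not_congr (isAlgebraic_closure_iff k S x)

theorem transcendental_mono {k k' : Subfield E} (h : k ≤ k') {x : E} (hx : Transcendental k' x) :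
    Transcendental k x := fun ha => hx (isAlgebraic_mono h ha)

/-- exchange -/
theorem transcendental_exchange (k : Subfield E) (x y : E) (hx : Transcendental k x)
    (hy : Transcendental (Subfield.closure ((k : Set E) ∪ {x})) y) :
    Transcendental (Subfield.closure ((k : Set E) ∪ {y})) x := by
  rw [transcendental_closure_iff] at hy ⊢
  have hxy : x ≠ y := by
    rintro rfl
    exact hy (isAlgebraic_algebraMap (⟨x, Algebra.subset_adjoin rfl⟩ : Algebra.adjoin k {x}))
  have h1 : AlgebraicIndepOn k (id : E → E) {x} := by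
    have := (AlgebraicIndepOn.insert_iff (R := k) (x := (id : E → E)) (s := ∅) (i := x)
      (by simp)).2 ⟨?_, ?_⟩
    · simpa using this
    · exact algebraicIndependent_empty_type_iff.mpr (algebraMap k E).injective
    · rw [Set.image_empty]
      have h := transcendental_closure_iff k ∅ x
      rw [Set.union_empty, Subfield.closure_eq] at h
      exact h.1 hx
  have h2 : AlgebraicIndepOn k (id : E → E) (insert y {x}) :=
    h1.insert (by rw [Set.image_id]; exact hy)
  rw [Set.pair_comm] at h2
  have h3 := ((AlgebraicIndepOn.insert_iff (R := k) (x := (id : E → E)) (s := {y}) (i := x)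
    (by simpa using hxy)).1 h2).2
  rw [Set.image_id] at h3
  exact h3

/-- transitivity -/
theorem isAlgebraic_trans (k k' : Subfield E) (hk : k ≤ k') (hk' : ∀ y ∈ k', IsAlgebraic k y)
    (x : E) (hx : IsAlgebraic k' x) : IsAlgebraic k x := by
  letI : Algebra k k' := (Subfield.inclusion hk).toAlgebra
  haveI : IsScalarTower k k' E := IsScalarTower.of_algebraMap_eq fun x => rfl
  haveI : Algebra.IsAlgebraic k k' :=
    ⟨fun y => (isAlgebraic_algebraMap_iff (A := E) (algebraMap k' E).injective).1 (hk' y y.2)⟩
  exact hx.restrictScalars k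

/-- the relative algebraic closure of a subfield, as a subfield -/
noncomputable def ac (k : Subfield E) : Subfield E := (algebraicClosure k E).toSubfield

theorem mem_ac {k : Subfield E} {x : E} : x ∈ ac k ↔ IsAlgebraic k x := by
  rw [ac, IntermediateField.mem_toSubfield, mem_algebraicClosure_iff]

theorem le_ac (k : Subfield E) : k ≤ ac k := fun x hx =>
  mem_ac.2 (isAlgebraic_algebraMap (⟨x, hx⟩ : k))

theorem isAlgebraic_of_mem {k : Subfield E} {x : E} (hx : x ∈ k) : IsAlgebraic k x :=
  isAlgebraic_algebraMap (⟨x, hx⟩ : k)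

/-- 9.3 for one variable: `k` is algebraically closed in `k(T)`. -/
theorem mem_of_isAlgebraic_simple (k : Subfield E) (T : E) (hT : Transcendental k T) (α : E)
    (hα : α ∈ Subfield.closure ((k : Set E) ∪ {T})) (h : IsAlgebraic k α) : α ∈ k := by
  obtain ⟨U, V, hV, hUV⟩ := (mem_closure_simple k T α).1 hα
  have hT' : Transcendental (ac k) T := fun h' =>
    hT (isAlgebraic_trans k (ac k) (le_ac k) (fun y hy => mem_ac.1 hy) T h')
  have hαk : α ∈ ac k := mem_ac.2 h
  letI : Algebra k (ac k) := (Subfield.inclusion (le_ac k)).toAlgebra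
  haveI : IsScalarTower k (ac k) E := IsScalarTower.of_algebraMap_eq fun x => rfl
  have h0 : (C (⟨α, hαk⟩ : ac k) * V.map (algebraMap k (ac k)) -
      U.map (algebraMap k (ac k)) : (ac k)[X]) = 0 := by
    apply transcendental_iff.1 hT'
    rw [map_sub, map_mul, aeval_C, aeval_map_algebraMap, aeval_map_algebraMap, ← hUV]
    exact sub_self _
  have hV0 : V ≠ 0 := by rintro rfl; simp at hV
  have h1 := congrArg (fun p : (ac k)[X] => ((p.coeff V.natDegree : ac k) : E)) h0
  simp only [coeff_sub, coeff_C_mul, coeff_map, coeff_zero] at h1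
  have h2 : α * (V.leadingCoeff : E) - (U.coeff V.natDegree : E) = 0 := h1
  have h3 : (V.leadingCoeff : E) ≠ 0 := fun h => leadingCoeff_ne_zero.2 hV0 (Subtype.ext h)
  have h4 : α = (U.coeff V.natDegree : E) / (V.leadingCoeff : E) := by
    rw [eq_div_iff h3]; linear_combination h2
  rw [h4]
  exact k.div_mem (Subtype.prop _) (Subtype.prop _)

theorem closure_le_of {k : Subfield E} {S : Set E} {L : Subfield E} (hk : k ≤ L) (hS : S ⊆ L) :
    Subfield.closure ((k : Set E) ∪ S) ≤ L :=
  Subfield.closure_le.2 (Set.union_subset hk hS)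

theorem le_closure_union (k : Subfield E) (S : Set E) :
    k ≤ Subfield.closure ((k : Set E) ∪ S) := fun _ hx => Subfield.subset_closure (Or.inl hx)

theorem mem_closure_union {k : Subfield E} {S : Set E} {x : E} (hx : x ∈ S) :
    x ∈ Subfield.closure ((k : Set E) ∪ S) := Subfield.subset_closure (Or.inr hx)

/-- the subring of the polynomials over `P` whose values at `c ∈ f` are in `f(A+cB)` -/
noncomputable def specRing (f P : Subfield E) (hf : f ≤ P) (A B : E) : Subring P[X] :=
  ⨅ c : f, Subring.comap (P.subtype.comp (evalRingHom (⟨c, hf c.2⟩ : P)))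
    (Subfield.closure ((f : Set E) ∪ {A + c * B})).toSubring

theorem mem_specRing {f P : Subfield E} {hf : f ≤ P} {A B : E} {q : P[X]} :
    q ∈ specRing f P hf A B ↔ ∀ c : f, ((q.eval (⟨c, hf c.2⟩ : P) : P) : E) ∈
      Subfield.closure ((f : Set E) ∪ {A + c * B}) := by
  simp only [specRing, Subring.mem_iInf]
  rfl

theorem exists_spec_rel (f P : Subfield E) (hf : f ≤ P) (A B : E) (hA : A ∈ P) (hB : B ∈ P)
    (Y : E) (hY : Transcendental P Y) (α : E)
    (halg : IsAlgebraic (Subfield.closure ((f : Set E) ∪ {Y, A + Y * B})) α) :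
    ∃ R : (specRing f P hf A B)[X], R ≠ 0 ∧
      ∑ i ∈ Finset.range (R.natDegree + 1), aeval Y (R.coeff i : P[X]) * α ^ i = 0 := by
  rw [isAlgebraic_closure_iff] at halg
  let φ : specRing f P hf A B →+* E :=
    (aeval Y : P[X] →ₐ[P] E).toRingHom.comp (specRing f P hf A B).subtype
  letI : Algebra (specRing f P hf A B) E := φ.toAlgebra
  have hinj : Function.Injective (algebraMap (specRing f P hf A B) E) := by
    intro x y hxy
    exact Subtype.ext (transcendental_iff_injective.1 hY hxy)
  have hr : Set.range (algebraMap (Algebra.adjoin f {Y, A + Y * B}) E) ⊆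
      Set.range (algebraMap (specRing f P hf A B) E) := by
    rintro _ ⟨⟨y, hy⟩, rfl⟩
    show y ∈ φ.range
    induction hy using Algebra.adjoin_induction with
    | mem x hx =>
      rcases hx with rfl | hx
      · refine ⟨⟨X, mem_specRing.2 fun c => ?_⟩, ?_⟩
        · rw [eval_X]; exact le_closure_union _ _ c.2
        · show aeval _ (X : P[X]) = _; simp
      · rw [Set.mem_singleton_iff] at hx
        subst hx
        refine ⟨⟨C ⟨A, hA⟩ + X * C ⟨B, hB⟩, mem_specRing.2 fun c => ?_⟩, ?_⟩
        · rw [eval_add, eval_mul, eval_C, eval_C, eval_X]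
          exact mem_closure_union rfl
        · show aeval _ (C ⟨A, hA⟩ + X * C ⟨B, hB⟩ : P[X]) = _
          rw [map_add, map_mul, aeval_C, aeval_C, aeval_X]
          rfl
    | algebraMap r =>
      refine ⟨⟨C ⟨r, hf r.2⟩, mem_specRing.2 fun c => ?_⟩, ?_⟩
      · rw [eval_C]; exact le_closure_union _ _ r.2
      · show aeval _ (C ⟨(r : E), hf r.2⟩ : P[X]) = _
        rw [aeval_C]; rfl
    | add x y _ _ hx hy => exact φ.range.add_mem hx hy
    | mul x y _ _ hx hy => exact φ.range.mul_mem hx hy
  obtain ⟨R, hR, h0⟩ := isAlgebraic_of_range (R := Algebra.adjoin f {Y, A + Y * B})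
    (S := specRing f P hf A B) Subtype.val_injective hinj hr halg
  refine ⟨R, hR, ?_⟩
  rw [aeval_eq_sum_range] at h0
  rw [← h0]
  refine Finset.sum_congr rfl fun i _ => ?_
  rw [Algebra.smul_def]
  rfl

end Pool.Agent.Helper13.DV
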