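import Mathlib

/-!
# MP_5766af_al, blueprint 9.1: interpolation
-/

set_option autoImplicit false

open Polynomial

namespace Pool.Agent.Helper13.DV

/-- 9.1: a rational function over `K'` which takes values in `k` at infinitely many points of `k`
is a rational function over `k`. -/
theorem interpolation {k K' : Type*} [Field k] [Field K'] [Algebra k K'] (U V : K'[X])
    (hV : V ≠ 0) (S : Set k) (hS : S.Infinite)
    (h : ∀ c ∈ S, ∃ a : k, U.eval (algebraMap k K' c) =
      algebraMap k K' a * V.eval (algebraMap k K' c)) :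
    ∃ U1 V1 : k[X], V1 ≠ 0 ∧ U * V1.map (algebraMap k K') = U1.map (algebraMap k K') * V := by
  classical
  set n : ℕ := max U.natDegree V.natDegree + 1 with hn
  have hUn : U.natDegree < n := by omega
  have hVn : V.natDegree < n := by omega
  have hSi := hS.to_subtype
  let e : (Fin n ⊕ Fin n) ↪ S := finSumFinEquiv.toEmbedding.trans
    (Fin.valEmbedding.trans (Infinite.natEmbedding S))
  choose a ha using h
  let c : Fin n ⊕ Fin n → k := fun j => (e j : k)
  have hc : Function.Injective c := fun i j hij => e.injective (Subtype.ext hij)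
  let α : Fin n ⊕ Fin n → k := fun j => a (e j) (e j).2
  have hα : ∀ j, U.eval (algebraMap k K' (c j)) =
      algebraMap k K' (α j) * V.eval (algebraMap k K' (c j)) := fun j => ha _ _
  let M : Matrix (Fin n ⊕ Fin n) (Fin n ⊕ Fin n) k := fun j i =>
    Sum.elim (fun i : Fin n => (c j) ^ (i : ℕ)) (fun i : Fin n => - α j * (c j) ^ (i : ℕ)) i
  have hsum : ∀ (p : K'[X]), p.natDegree < n → ∀ x : K',
      ∑ i : Fin n, x ^ (i : ℕ) * p.coeff i = p.eval x := by
    intro p hp x
    rw [eval_eq_sum_range' hp x, Finset.sum_range]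
    exact Finset.sum_congr rfl fun i _ => mul_comm _ _
  let w : Fin n ⊕ Fin n → K' := Sum.elim (fun i => U.coeff i) (fun i => V.coeff i)
  have hw : w ≠ 0 := by
    intro h0
    apply hV
    ext i
    by_cases hi : i < n
    · have := congrFun h0 (Sum.inr ⟨i, hi⟩)
      simpa [w] using this
    · rw [coeff_eq_zero_of_natDegree_lt (by omega)]; simp
  have hMw : (M.map (algebraMap k K')).mulVec w = 0 := by
    ext j
    simp only [Matrix.mulVec, dotProduct, Matrix.map_apply, Fintype.sum_sum_type, Pi.zero_apply]
    have h1 : ∑ i : Fin n, algebraMap k K' (M j (Sum.inl i)) * w (Sum.inl i) =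
        U.eval (algebraMap k K' (c j)) := by
      rw [← hsum U hUn]
      exact Finset.sum_congr rfl fun i _ => by simp [M, w]
    have h2 : ∑ i : Fin n, algebraMap k K' (M j (Sum.inr i)) * w (Sum.inr i) =
        - (algebraMap k K' (α j) * V.eval (algebraMap k K' (c j))) := by
      rw [← hsum V hVn, Finset.mul_sum, ← Finset.sum_neg_distrib]
      refine Finset.sum_congr rfl fun i _ => ?_
      simp [M, w]
      ring
    rw [h1, h2, hα j]
    ring
  have hdet : M.det = 0 := by
    have h1 : (M.map (algebraMap k K')).det = 0 :=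
      Matrix.exists_mulVec_eq_zero_iff.1 ⟨w, hw, hMw⟩
    have h2 : algebraMap k K' M.det = 0 := by
      rw [RingHom.map_det]; exact h1
    exact (map_eq_zero _).1 h2
  obtain ⟨v, hv, hMv⟩ := Matrix.exists_mulVec_eq_zero_iff.2 hdet
  let U1 : k[X] := ∑ i : Fin n, C (v (Sum.inl i)) * X ^ (i : ℕ)
  let V1 : k[X] := ∑ i : Fin n, C (v (Sum.inr i)) * X ^ (i : ℕ)
  have hdeg : ∀ f : Fin n → k, (∑ i : Fin n, C (f i) * X ^ (i : ℕ) : k[X]).natDegree < n := by
    intro f
    have : (∑ i : Fin n, C (f i) * X ^ (i : ℕ) : k[X]).natDegree ≤ n - 1 := by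
      apply natDegree_sum_le_of_forall_le
      intro i _
      exact (natDegree_C_mul_X_pow_le _ _).trans (by omega)
    omega
  have hcoeff : ∀ (f : Fin n → k) (i : Fin n),
      (∑ i : Fin n, C (f i) * X ^ (i : ℕ) : k[X]).coeff i = f i := by
    intro f i
    rw [finsetSum_coeff, Finset.sum_eq_single i]
    · simp
    · intro j _ hj
      rw [coeff_C_mul_X_pow, if_neg]
      intro h; exact hj (Fin.ext h.symm)
    · simp
  have hev : ∀ j, U1.eval (c j) = α j * V1.eval (c j) := by
    intro j
    have := congrFun hMv j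
    simp only [Matrix.mulVec, dotProduct, Fintype.sum_sum_type, Pi.zero_apply] at this
    simp only [U1, V1, eval_finsetSum, eval_mul, eval_C, eval_pow, eval_X, Finset.mul_sum]
    rw [← sub_eq_zero, ← Finset.sum_sub_distrib, ← this, ← Finset.sum_add_distrib]
    refine Finset.sum_congr rfl fun i _ => ?_
    simp [M]
    ring
  have hD : U * V1.map (algebraMap k K') - U1.map (algebraMap k K') * V = 0 := by
    apply eq_zero_of_natDegree_lt_card_of_eval_eq_zero _
      (f := fun j => algebraMap k K' (c j)) ((algebraMap k K').injective.comp hc)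
    · intro j
      rw [eval_sub, eval_mul, eval_mul, eval_map_algebraMap, eval_map_algebraMap,
        aeval_algebraMap_apply, aeval_algebraMap_apply, coe_aeval_eq_eval, hα j, hev j,
        map_mul]
      ring
    · have h1 : (V1.map (algebraMap k K')).natDegree < n := by
        rw [natDegree_map]; exact hdeg _
      have h2 : (U1.map (algebraMap k K')).natDegree < n := by
        rw [natDegree_map]; exact hdeg _
      rw [Fintype.card_sum, Fintype.card_fin]
      refine (natDegree_sub_le _ _).trans_lt (max_lt ?_ ?_)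
      · exact natDegree_mul_le.trans_lt (by omega)
      · exact natDegree_mul_le.trans_lt (by omega)
  refine ⟨U1, V1, ?_, sub_eq_zero.1 hD⟩
  intro hV1
  rw [hV1, Polynomial.map_zero, mul_zero, zero_sub, neg_eq_zero, mul_eq_zero,
    or_iff_left hV, Polynomial.map_eq_zero] at hD
  apply hv
  ext (i | i)
  · rw [← hcoeff (fun i => v (Sum.inl i)) i]
    show U1.coeff i = _
    rw [hD]; simp
  · rw [← hcoeff (fun i => v (Sum.inr i)) i]
    show V1.coeff i = _
    rw [hV1]; simp

end Pool.Agent.Helper13.DV
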