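import Pool.Agent.Helper13.DV.Interp
import Pool.Agent.Helper13.DV.AlgBasics

/-!
# MP_5766af_al, blueprint 9.2: descent for rational functions
-/

set_option autoImplicit false

open Polynomial

namespace Pool.Agent.Helper13.DV

variable {E : Type*} [Field E]

/-- 9.2: `k` algebraically closed in `K'`, `T` transcendental over `K'`; an element of `K'(T)`
algebraic over `k(T)` is in `k(T)`. -/
theorem rat_descent (k K' : Subfield E) (hk : k ≤ K') (hinf : Infinite k)
    (hac : ∀ x ∈ K', IsAlgebraic k x → x ∈ k) (T : E) (hT : Transcendental K' T) (α : E)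
    (hα : α ∈ Subfield.closure ((K' : Set E) ∪ {T}))
    (halg : IsAlgebraic (Subfield.closure ((k : Set E) ∪ {T})) α) :
    α ∈ Subfield.closure ((k : Set E) ∪ {T}) := by
  classical
  letI : Algebra k K' := (Subfield.inclusion hk).toAlgebra
  haveI : IsScalarTower k K' E := IsScalarTower.of_algebraMap_eq fun x => rfl
  have hTk : Transcendental k T := fun h => hT (isAlgebraic_mono hk h)
  obtain ⟨U, V, hV, hUV⟩ := (mem_closure_simple K' T α).1 hα
  obtain ⟨R, hR, hR0⟩ := exists_biv k T α hTk halg
  have hV0 : V ≠ 0 := by rintro rfl; simp at hV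
  set d := R.natDegree with hd
  let S : K'[X] := ∑ i ∈ Finset.range (d + 1),
    (R.coeff i).map (algebraMap k K') * U ^ i * V ^ (d - i)
  have hS : S = 0 := by
    apply transcendental_iff.1 hT
    simp only [S, map_sum, map_mul, map_pow, aeval_map_algebraMap, ← hUV]
    have : ∑ i ∈ Finset.range (d + 1), aeval T (R.coeff i) * (α * aeval T V) ^ i *
        aeval T V ^ (d - i) =
        aeval T V ^ d * ∑ i ∈ Finset.range (d + 1), aeval T (R.coeff i) * α ^ i := by
      rw [Finset.mul_sum]
      refine Finset.sum_congr rfl fun i hi => ?_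
      have hi' : i ≤ d := by simpa [Nat.lt_succ_iff] using hi
      conv_rhs => rw [← Nat.add_sub_cancel' hi', pow_add]
      ring
    rw [this, hR0, mul_zero]
  have hlc : R.leadingCoeff ≠ 0 := leadingCoeff_ne_zero.2 hR
  let Sset : Set k := {c | R.leadingCoeff.eval c ≠ 0 ∧ V.eval (algebraMap k K' c) ≠ 0}
  have hSinf : Sset.Infinite := by
    have h1 : {c : k | R.leadingCoeff.eval c = 0}.Finite := by
      have := (R.leadingCoeff.roots.toFinset).finite_toSet
      refine this.subset ?_
      intro c hc
      simp only [Finset.mem_coe, Multiset.mem_toFinset, mem_roots hlc]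
      exact hc
    have h2 : {c : k | V.eval (algebraMap k K' c) = 0}.Finite := by
      have := (V.roots.toFinset).finite_toSet
      refine (this.preimage ((algebraMap k K').injective.injOn (s := _))).subset ?_
      intro c hc
      simp only [Set.mem_preimage, Finset.mem_coe, Multiset.mem_toFinset, mem_roots hV0]
      exact hc
    have h3 : Sset = ({c : k | R.leadingCoeff.eval c = 0} ∪
        {c : k | V.eval (algebraMap k K' c) = 0})ᶜ := by
      ext c; simp [Sset, not_or]
    rw [h3]
    exact (h1.union h2).infinite_compl
  obtain ⟨U1, V1, hV1, hUV1⟩ := interpolation U V hV0 Sset hSinf (by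
    rintro c ⟨hc1, hc2⟩
    set b : K' := U.eval (algebraMap k K' c) / V.eval (algebraMap k K' c) with hb
    have hbU : U.eval (algebraMap k K' c) = b * V.eval (algebraMap k K' c) := by
      rw [hb, div_mul_cancel₀ _ hc2]
    have halgb : IsAlgebraic k b := by
      refine ⟨R.map (evalRingHom c), ?_, ?_⟩
      · intro h0
        apply hc1
        have := congrArg (fun p : k[X] => p.coeff d) h0
        rw [leadingCoeff]
        simpa only [coeff_map, coeff_zero, coe_evalRingHom] using this
      · have h1 : (R.map (evalRingHom c)).natDegree < d + 1 :=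
          Nat.lt_succ_of_le natDegree_map_le
        rw [aeval_eq_sum_range' h1]
        have h2 := congrArg (fun p : K'[X] => p.eval (algebraMap k K' c)) hS
        simp only [S, eval_finsetSum, eval_mul, eval_pow, eval_zero, hbU,
          eval_map_algebraMap, aeval_algebraMap_apply, coe_aeval_eq_eval] at h2
        have h3 : ∑ i ∈ Finset.range (d + 1), algebraMap k K' ((R.coeff i).eval c) *
            (b * V.eval (algebraMap k K' c)) ^ i * V.eval (algebraMap k K' c) ^ (d - i) =
            V.eval (algebraMap k K' c) ^ d *
              ∑ i ∈ Finset.range (d + 1), (R.map (evalRingHom c)).coeff i • b ^ i := by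
          rw [Finset.mul_sum]
          refine Finset.sum_congr rfl fun i hi => ?_
          have hi' : i ≤ d := by simpa [Nat.lt_succ_iff] using hi
          rw [coeff_map, Algebra.smul_def, coe_evalRingHom]
          conv_rhs => rw [← Nat.add_sub_cancel' hi', pow_add]
          ring
        rw [h3] at h2
        exact (mul_eq_zero.1 h2).resolve_left (pow_ne_zero _ hc2)
    have hbk : (b : E) ∈ k := by
      apply hac _ b.2
      exact halgb.algebraMap (A := E)
    refine ⟨⟨(b : E), hbk⟩, ?_⟩
    rw [hbU]
    rfl)
  rw [mem_closure_simple]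
  refine ⟨U1, V1, fun h => hV1 (transcendental_iff.1 hTk _ h), ?_⟩
  have h := congrArg (fun p : K'[X] => aeval T p) hUV1
  simp only [map_mul, aeval_map_algebraMap, ← hUV] at h
  have h' : (α * aeval T V1) * aeval T V = aeval T U1 * aeval T V := by
    rw [← h]; ring
  exact mul_right_cancel₀ hV h'

end Pool.Agent.Helper13.DV
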